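import Pool.Agent.X73.CG.Main

set_option autoImplicit false

/-!
# A planar triangle-free graph with cograph chromatic number three
-/

namespace Pool.Agent.Results.MP_b5aa49_co.PlanarTriangleFreeThree

open Pool.Agent.H239R2.Planar (HasStraightLineDrawing)

/-- A graph is a cograph if it has no induced path on four vertices. -/
def IsCograph {V : Type} (G : SimpleGraph V) : Prop :=
  IsEmpty (SimpleGraph.pathGraph 4 ↪g G)

/-- `V(G)` can be partitioned into `k` (possibly empty) sets, each inducing a cograph. -/
def CPartition {V : Type} (G : SimpleGraph V) (k : ℕ) : Prop :=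
  ∃ f : V → Fin k, ∀ i, IsCograph (G.induce {v | f v = i})

/-- The c-chromatic number. -/
noncomputable def cChromaticNumber {V : Type} (G : SimpleGraph V) : ℕ :=
  sInf {k | CPartition G k}

/-- There is a finite triangle-free graph with a straight-line drawing in the plane (it has 41
vertices) whose c-chromatic number is three: it has no partition into two sets inducing
cographs, but one into three. -/
theorem result :
    ∃ G : SimpleGraph (Fin 41), HasStraightLineDrawing G ∧ G.CliqueFree 3 ∧
      cChromaticNumber G = 3 ∧ CPartition G 3 ∧ ∀ k, CPartition G k → 3 ≤ k := by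
  have low : ∀ k, CPartition Pool.Agent.X73.CG.G k → 3 ≤ k := by
    rintro k ⟨f, hf⟩
    by_contra hk
    obtain ⟨i, ⟨e⟩⟩ := Pool.Agent.X73.CG.mono_path (by omega : k ≤ 2) f
    exact (hf i).false e
  have up : CPartition Pool.Agent.X73.CG.G 3 := by
    obtain ⟨f, hf⟩ := Pool.Agent.X73.CG.colouring
    refine ⟨f, fun i => ⟨fun e => ?_⟩⟩
    have h : (SimpleGraph.pathGraph 4).Adj 0 1 := by
      rw [SimpleGraph.pathGraph_adj]; simp
    have h' := e.map_rel_iff.mpr h
    exact hf _ _ h' ((e 0).2.trans (e 1).2.symm)
  refine ⟨Pool.Agent.X73.CG.G, Pool.Agent.X73.CG.drawing, Pool.Agent.X73.CG.triangle_free, ?_,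
    up, low⟩
  exact le_antisymm (Nat.sInf_le up) (le_csInf ⟨3, up⟩ low)

end Pool.Agent.Results.MP_b5aa49_co.PlanarTriangleFreeThree
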